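import Pool.Agent.K1H88.DW.Stm
import Pool.Agent.K1H52.DF.Tot

/-! Project DW, piece TOT: the number of all reduced pairs of height at most `T`, for all line
bundles. -/

set_option autoImplicit false

namespace Pool.Agent.K1H68.DW

open Module NumberField Pool.Agent.K1H88.DW
open Pool.Agent.K1H88.DP (Emb pl)
open Pool.Agent.K1H88.DF (EmbU deg Distinct InSlab Slab)
open Pool.Agent.K1H52.DP (exists_pow2 exists_one_le rpow_logb exists_c log_bound)
open Pool.Agent.K1H52.DF (fr fin d_pos zero_facts)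

set_option linter.unusedSectionVars false
set_option linter.unusedVariables false

variable (F : Type) [Field F] [NumberField F] {ι : Type} [Fintype ι] (E : ι → Type)
  [∀ k, Field (E k)] [∀ k, NumberField (E k)] [∀ k, Algebra F (E k)] (a : ι → ℕ)


/-- the exponents -/
noncomputable def w (k : ι) : ℕ := a k * finrank ℚ (E k)

theorem w_pos (ha : ∀ k, 1 ≤ a k) (k : ι) : 1 ≤ w E a k := by
  unfold w
  have h1 := Module.finrank_pos (R := ℚ) (M := E k)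
  have h2 := ha k
  exact Nat.mul_pos h2 h1

/-- the pairs with given zero set and given embeddings -/
def FamJ (B T : ℝ) (J : Finset ι) (i₀ : ∀ u : F →+* ℂ, EmbU F E u) :
    Set ((∀ k, E k) × (∀ k, E k)) :=
  {P | (∀ k, IsIntegral ℤ (P.1 k) ∧ IsIntegral ℤ (P.2 k)) ∧ Distinct F E P.1 P.2 ∧
    (∀ k, P.1 k = 0 → P.2 k = 1) ∧ (∀ k, k ∈ J ↔ P.1 k ≠ 0) ∧
    ∃ (ρ : ι → ℝ) (μ : ℝ), (∀ k, 0 < ρ k) ∧ 0 < μ ∧ μ ≤ B ∧
      ∏ k, ρ k ^ (w E a k) ≤ T ∧
      (∀ i : Emb E ℂ, ‖i.2 (P.1 i.1)‖ ≤ μ * ρ i.1) ∧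
      (∀ i : Emb E ℂ, ‖i.2 (P.2 i.1)‖ ≤ B * ρ i.1 / μ) ∧
      InSlab F E P.1 P.2 B i₀}

/-- the dyadic data of an element of `FamJ` -/
theorem data {B : ℝ} (hB : 1 ≤ B) {J : Finset ι} {i₀ : ∀ u : F →+* ℂ, EmbU F E u} {c : ℕ}
    (hc0 : 2 * B ≤ (2 : ℝ) ^ c)
    {P : (∀ k, E k) × (∀ k, E k)} (hP1 : ∀ k, IsIntegral ℤ (P.1 k) ∧ IsIntegral ℤ (P.2 k))
    (hP3 : ∀ k, P.1 k = 0 → P.2 k = 1) (hJ : ∀ k, k ∈ J ↔ P.1 k ≠ 0)
    {ρ : ι → ℝ} {μ : ℝ} (hρ : ∀ k, 0 < ρ k) (hμ : 0 < μ) (hμB : μ ≤ B)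
    (h9 : ∀ i : Emb E ℂ, ‖i.2 (P.1 i.1)‖ ≤ μ * ρ i.1)
    (h10 : ∀ i : Emb E ℂ, ‖i.2 (P.2 i.1)‖ ≤ B * ρ i.1 / μ)
    (h11 : InSlab F E P.1 P.2 B i₀) :
    ∃ (m : ℤ) (s : ι → ℤ), m ≤ c ∧ μ ≤ (2 : ℝ) ^ m ∧ (2 : ℝ) ^ m ≤ 2 * μ ∧
      (∀ k, k ∉ J → s k = 0) ∧ (∀ k ∈ J, 0 ≤ s k) ∧
      (2 : ℝ) ^ (∑ k ∈ J, w E a k * s k : ℤ) ≤
        2 ^ (∑ k ∈ J, w E a k) * (∏ k ∈ J, ρ k ^ (w E a k)) *
          (2 : ℝ) ^ (m * ((∑ k ∈ J, w E a k : ℕ) : ℤ)) ∧
      P ∈ Slab F E J (2 * B) (fun k => (2 : ℝ) ^ (s k - m)) ((2 : ℝ) ^ m) i₀ := by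
  classical
  have g1 : ∀ k ∈ J, 1 ≤ μ * ρ k := by
    intro k hk
    obtain ⟨σ, hσ⟩ := exists_one_le (hP1 k).1 ((hJ k).1 hk)
    exact hσ.trans (h9 ⟨k, σ⟩)
  obtain ⟨m, hm1, hm2⟩ := exists_pow2 hμ
  choose t ha1 ha2 using fun k => exists_pow2 (hρ k)
  refine ⟨m, fun k => if k ∈ J then m + t k else 0, ?_, hm1, hm2.le, fun k hk => if_neg hk, ?_, ?_,
    ?_⟩
  · by_contra hcon
    push Not at hcon
    have h1 : (2 : ℝ) ^ (c : ℤ) < (2 : ℝ) ^ m := zpow_lt_zpow_right₀ one_lt_two hcon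
    rw [zpow_natCast] at h1
    linarith
  · intro k hk
    simp only
    rw [if_pos hk]
    by_contra hcon
    push Not at hcon
    have h1 : (2 : ℝ) ^ (m + t k) < 1 := zpow_lt_one_of_neg₀ one_lt_two hcon
    rw [zpow_add₀ two_ne_zero] at h1
    have h2 : μ * ρ k ≤ (2 : ℝ) ^ m * (2 : ℝ) ^ (t k) :=
      mul_le_mul hm1 (ha1 k) (hρ k).le (by positivity)
    have := g1 k hk
    linarith
  · have e1 : (∑ k ∈ J, w E a k * (if k ∈ J then m + t k else 0) : ℤ) =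
        (∑ k ∈ J, w E a k * t k : ℤ) + m * ((∑ k ∈ J, w E a k : ℕ) : ℤ) := by
      push_cast
      rw [Finset.mul_sum, ← Finset.sum_add_distrib]
      exact Finset.sum_congr rfl fun k hk => by rw [if_pos hk]; ring
    rw [e1, zpow_add₀ two_ne_zero]
    refine mul_le_mul_of_nonneg_right ?_ (by positivity)
    have e3 : ∀ S : Finset ι, (2 : ℝ) ^ (∑ k ∈ S, w E a k * t k : ℤ) ≤
        2 ^ (∑ k ∈ S, w E a k) * ∏ k ∈ S, ρ k ^ (w E a k) := by
      intro S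
      induction S using Finset.induction_on with
      | empty => simp
      | insert k S hk ih =>
        rw [Finset.sum_insert hk, Finset.sum_insert hk, Finset.prod_insert hk, zpow_add₀ two_ne_zero,
          pow_add]
        have h1 : (2 : ℝ) ^ ((w E a k : ℤ) * t k) ≤ 2 ^ (w E a k) * ρ k ^ (w E a k) := by
          rw [mul_comm, zpow_mul, zpow_natCast, ← mul_pow]
          exact pow_le_pow_left₀ (by positivity) (ha2 k).le _
        calc (2 : ℝ) ^ ((w E a k : ℤ) * t k) * (2 : ℝ) ^ (∑ k ∈ S, w E a k * t k : ℤ)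
            ≤ (2 ^ (w E a k) * ρ k ^ (w E a k)) *
                (2 ^ (∑ k ∈ S, w E a k) * ∏ k ∈ S, ρ k ^ (w E a k)) :=
              mul_le_mul h1 ih (by positivity) (by have := hρ k; positivity)
          _ = _ := by ring
    exact e3 J
  · refine ⟨hP1, fun k hk => ?_, fun k hk σ => ?_, fun u => ?_⟩
    · have h0 : P.1 k = 0 := by
        by_contra h
        exact hk ((hJ k).2 h)
      exact ⟨h0, hP3 k h0⟩
    · simp only
      rw [if_pos hk, add_sub_cancel_left]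
      constructor
      · refine (h9 ⟨k, σ⟩).trans ?_
        exact mul_le_mul hm1 (ha1 k) (hρ k).le (by positivity)
      · refine (h10 ⟨k, σ⟩).trans ?_
        rw [div_le_div_iff₀ hμ (by positivity)]
        simp only
        calc B * ρ k * (2 : ℝ) ^ m ≤ B * (2 : ℝ) ^ (t k) * (2 * μ) :=
              mul_le_mul (mul_le_mul_of_nonneg_left (ha1 k) (by linarith)) hm2.le (by positivity)
                (by positivity)
          _ = 2 * B * (2 : ℝ) ^ (t k) * μ := by ring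
    · exact ⟨(h11 u).1, (h11 u).2.trans (by linarith)⟩

/-- the slab bound in the shifted coordinates -/
theorem slab_val {α : ℝ} (hαa : ∀ k, 2 ≤ α * a k) (J : Finset ι) (s : ι → ℤ) (m : ℤ)
    (hs : ∀ k ∈ J, 0 ≤ s k) :
    ((2 : ℝ) ^ m) ^ (2 * finrank ℚ F) *
        ∏ k ∈ J, ((2 : ℝ) ^ (s k - m)) ^ (2 * finrank ℚ (E k)) ≤
      (2 : ℝ) ^ ((m : ℝ) * (2 * finrank ℚ F - 2 * ((∑ k ∈ J, finrank ℚ (E k) : ℕ) : ℝ))) *
        (2 : ℝ) ^ (α * ((∑ k ∈ J, w E a k * s k : ℤ) : ℝ)) := by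
  have h1 : ∀ k ∈ J, ((2 : ℝ) ^ (s k - m)) ^ (2 * finrank ℚ (E k)) ≤
      (2 : ℝ) ^ (α * (w E a k * s k) - 2 * m * finrank ℚ (E k)) := by
    intro k hk
    have e1 : ((2 : ℝ) ^ (s k - m)) ^ (2 * finrank ℚ (E k)) =
        (2 : ℝ) ^ (((s k - m : ℤ) : ℝ) * ((2 * finrank ℚ (E k) : ℕ) : ℝ)) := by
      rw [Real.rpow_mul zero_le_two, Real.rpow_intCast, Real.rpow_natCast]
    rw [e1]
    apply Real.rpow_le_rpow_of_exponent_le one_le_two
    have h2 : (0 : ℝ) ≤ s k := by exact_mod_cast hs k hk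
    have h3 : (0 : ℝ) ≤ finrank ℚ (E k) := by positivity
    have h4 := mul_le_mul_of_nonneg_right (hαa k) (mul_nonneg h3 h2)
    unfold w
    push_cast
    nlinarith
  have e2 : ((2 : ℝ) ^ m) ^ (2 * finrank ℚ F) = (2 : ℝ) ^ ((m : ℝ) * (2 * finrank ℚ F)) := by
    rw [Real.rpow_mul zero_le_two, Real.rpow_intCast]
    have : (2 * (finrank ℚ F : ℝ)) = ((2 * finrank ℚ F : ℕ) : ℝ) := by push_cast; ring
    rw [this, Real.rpow_natCast]
  have h5 : ∏ k ∈ J, ((2 : ℝ) ^ (s k - m)) ^ (2 * finrank ℚ (E k)) ≤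
      (2 : ℝ) ^ (∑ k ∈ J, (α * (w E a k * s k) - 2 * m * finrank ℚ (E k))) := by
    rw [Real.rpow_sum_of_pos two_pos]
    exact Finset.prod_le_prod (fun k _ => by positivity) h1
  rw [e2]
  calc (2 : ℝ) ^ ((m : ℝ) * (2 * finrank ℚ F)) *
        ∏ k ∈ J, ((2 : ℝ) ^ (s k - m)) ^ (2 * finrank ℚ (E k))
      ≤ (2 : ℝ) ^ ((m : ℝ) * (2 * finrank ℚ F)) *
        (2 : ℝ) ^ (∑ k ∈ J, (α * (w E a k * s k) - 2 * m * finrank ℚ (E k))) :=
        mul_le_mul_of_nonneg_left h5 (by positivity)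
    _ = _ := by
        rw [← Real.rpow_add two_pos, ← Real.rpow_add two_pos]
        congr 1
        rw [Finset.sum_sub_distrib, ← Finset.mul_sum, ← Finset.mul_sum]
        push_cast
        ring

/-- the count for a fixed zero set and fixed embeddings -/
theorem caseJ (hslab : Pool.Agent.K1H88.DF.S_SLAB) (hsum : S_SUM) {B α : ℝ} (hB : 1 ≤ B)
    (hα : 0 < α) (ha : ∀ k, 1 ≤ a k) (hαa : ∀ k, 2 ≤ α * a k)
    (i₀ : ∀ u : F →+* ℂ, EmbU F E u) (J : Finset ι) (hne : J.Nonempty) (v e : ℕ) (he : 1 ≤ e)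
    (hWe : ∑ k ∈ J, w E a k = e + v) (θ : ℝ)
    (hθ : θ = α * e - 2 * ((∑ k ∈ J, finrank ℚ (E k) : ℕ) : ℝ) + 2 * finrank ℚ F) (hθ0 : 0 ≤ θ)
    (hv : ∀ (T : ℝ) (P : (∀ k, E k) × (∀ k, E k)) (ρ : ι → ℝ) (μ : ℝ),
      (∀ k, P.1 k = 0 → P.2 k = 1) → (∀ k, k ∈ J ↔ P.1 k ≠ 0) → (∀ k, 0 < ρ k) → 0 < μ →
      ∏ k, ρ k ^ (w E a k) ≤ T → (∀ i : Emb E ℂ, ‖i.2 (P.2 i.1)‖ ≤ B * ρ i.1 / μ) →
      (∏ k ∈ J, ρ k ^ (w E a k)) * μ ^ v ≤ T * B ^ v) :
    ∃ C M : ℝ, 0 < C ∧ 0 < M ∧ ∀ T : ℝ, 2 ≤ T → (FamJ F E a B T J i₀).Finite ∧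
      ∃ N : ℕ, (N : ℝ) ≤ M * Real.log T ∧
      ((FamJ F E a B T J i₀).ncard : ℝ) ≤
        C * T ^ α * Real.log T ^ (J.card - 1) *
          ∑ j ∈ Finset.range N, (2 : ℝ) ^ (-((j : ℝ) * θ)) := by
  classical
  obtain ⟨c, hc0, hc1⟩ := exists_c hB
  obtain ⟨CS, hCS, hS⟩ := hslab F ι E (2 * B) (by linarith)
  obtain ⟨CU, hCU, hU⟩ := hsum ι J (w E a) 0 α hne (w_pos E a ha) hα
  set W : ℕ := ∑ k ∈ J, w E a k with hW
  set DJ : ℝ := ((∑ k ∈ J, finrank ℚ (E k) : ℕ) : ℝ) with hDJ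
  set A0 : ℝ := 2 ^ (W + v) * B ^ v with hA0
  have hB0 : 0 < B := by linarith
  have hA01 : 1 ≤ A0 := by
    have h1 : (1 : ℝ) ≤ 2 ^ (W + v) := one_le_pow₀ one_le_two
    have h2 : (1 : ℝ) ≤ B ^ v := one_le_pow₀ hB
    rw [hA0]
    nlinarith
  have hA00 : 0 < A0 := by linarith
  have he' : (1 : ℝ) ≤ e := by exact_mod_cast he
  set b : ℝ := Real.logb 2 A0 + c * e + 1 with hb
  have hb0 : 0 ≤ b := by
    have : 0 ≤ Real.logb 2 A0 := Real.logb_nonneg one_lt_two hA01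
    positivity
  have hl2 : 0 < Real.log 2 := Real.log_pos one_lt_two
  set M : ℝ := (1 + b) / Real.log 2 with hM
  have hM0 : 0 < M := by positivity
  refine ⟨CS * CU * ((2 * A0) ^ α * (2 : ℝ) ^ ((c : ℝ) * θ) * M ^ (J.card - 1)), M, by positivity, hM0,
    fun T hT => ?_⟩
  have hT0 : 0 < T := by linarith
  set L0 : ℝ := Real.logb 2 (A0 * T) with hL0
  have hL0e : L0 = Real.logb 2 T + Real.logb 2 A0 := by
    rw [hL0, Real.logb_mul hA00.ne' hT0.ne']; ring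
  have hL01 : 1 ≤ L0 := by
    rw [hL0, Real.le_logb_iff_rpow_le one_lt_two (by positivity), Real.rpow_one]
    nlinarith
  set K : ℕ := ⌊L0 / e⌋₊ with hK
  have hKle : (K : ℝ) * e ≤ L0 := by
    have h1 : (K : ℝ) ≤ L0 / e := Nat.floor_le (by positivity)
    rwa [le_div_iff₀ (by linarith)] at h1
  set L' : ℝ := L0 + c * e + 1 with hL'
  have hL'M : L' ≤ M * Real.log T := by
    have h3 := log_bound hT (a := 1) (b := b) zero_le_one hb0
    have h4 : L' = 1 * Real.logb 2 T + b := by rw [hL', hL0e, hb]; ring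
    rw [h4]
    exact h3
  let Lf : ℕ → ℝ := fun j => max 1 (L0 + ((c : ℝ) - j) * e + 1)
  have hLf : ∀ j, 1 ≤ Lf j := fun j => le_max_left _ _
  have hLfe : ∀ j ∈ Finset.range (c + K + 1), Lf j = L0 + ((c : ℝ) - j) * e + 1 := by
    intro j hj
    have h1 : (j : ℝ) ≤ c + K := by
      have := Finset.mem_range.1 hj
      exact_mod_cast (by omega : j ≤ c + K)
    apply max_eq_right
    nlinarith
  have hfin : ∀ j : ℕ, {s : ι → ℤ | (∀ k, k ∉ J → s k = 0) ∧ (∀ k ∈ J, -((0 : ℕ) : ℤ) ≤ s k) ∧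
        ((∑ k ∈ J, w E a k * s k : ℤ) : ℝ) ≤ Lf j}.Finite := fun j => (hU (Lf j) (hLf j)).1
  let A : ℕ → Finset (ι → ℤ) := fun j => (hfin j).toFinset
  let Sl : ℕ → (ι → ℤ) → Set ((∀ k, E k) × (∀ k, E k)) := fun j s =>
    Slab F E J (2 * B) (fun k => (2 : ℝ) ^ (s k - ((c : ℤ) - j))) ((2 : ℝ) ^ ((c : ℤ) - j)) i₀
  have hA : ∀ j, ∀ s ∈ A j, (Sl j s).Finite ∧ ((Sl j s).ncard : ℝ) ≤
      CS * ((2 : ℝ) ^ (((c : ℝ) - j) * (2 * finrank ℚ F - 2 * DJ)) *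
        (2 : ℝ) ^ (α * ((∑ k ∈ J, w E a k * s k : ℤ) : ℝ))) := by
    intro j s hs
    obtain ⟨h1, h2, h3⟩ := (hfin j).mem_toFinset.1 hs
    have h2' : ∀ k ∈ J, 0 ≤ s k := fun k hk => by simpa using h2 k hk
    have hμ : (2 : ℝ) ^ ((c : ℤ) - j) ≤ 2 * (2 * B) := by
      have h3 : (2 : ℝ) ^ ((c : ℤ) - j) ≤ (2 : ℝ) ^ (c : ℤ) :=
        zpow_le_zpow_right₀ one_le_two (by omega)
      rw [zpow_natCast] at h3
      linarith
    obtain ⟨h4, h5⟩ := hS J (fun k => (2 : ℝ) ^ (s k - ((c : ℤ) - j))) ((2 : ℝ) ^ ((c : ℤ) - j)) i₀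
      (by positivity) hμ (by
      intro k hk
      rw [← zpow_add₀ two_ne_zero]
      refine one_le_zpow₀ one_le_two ?_
      have := h2' k hk
      omega)
    refine ⟨h4, h5.trans ?_⟩
    rw [mul_assoc]
    refine mul_le_mul_of_nonneg_left ?_ hCS.le
    have h6 := slab_val F E a hαa J s ((c : ℤ) - j) h2'
    have e1 : ((((c : ℤ) - j : ℤ)) : ℝ) = (c : ℝ) - j := by push_cast; ring
    rw [e1] at h6
    exact h6
  have hcov : FamJ F E a B T J i₀ ⊆ ⋃ j ∈ Finset.range (c + K + 1), ⋃ s ∈ A j, Sl j s := by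
    rintro P ⟨p1, p2, p3, p4, ρ, μ, p5, p6, p7, p8, p10, p11, p12⟩
    obtain ⟨m, s, g2, g3, g4, g5, g6, g7, g8⟩ :=
      data F E a hB hc0 p1 p3 p4 p5 p6 p7 p10 p11 p12
    have hprod := hv T P ρ μ p3 p4 p5 p6 p8 p11
    have hQ0 : 0 ≤ ∏ k ∈ J, ρ k ^ (w E a k) := Finset.prod_nonneg fun k _ => by
      have := p5 k
      positivity
    -- the bound for the exponent
    have hkey : ((∑ k ∈ J, w E a k * s k : ℤ) : ℝ) ≤ L0 + m * e := by
      have h1 : (2 : ℝ) ^ (∑ k ∈ J, w E a k * s k : ℤ) * ((2 : ℝ) ^ m) ^ v ≤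
          (A0 * T) * (2 : ℝ) ^ (m * (W : ℤ)) := by
        calc (2 : ℝ) ^ (∑ k ∈ J, w E a k * s k : ℤ) * ((2 : ℝ) ^ m) ^ v
            ≤ (2 ^ W * (∏ k ∈ J, ρ k ^ (w E a k)) * (2 : ℝ) ^ (m * (W : ℤ))) * (2 * μ) ^ v :=
              mul_le_mul g7 (pow_le_pow_left₀ (by positivity) g4 _) (by positivity)
                (by positivity)
          _ = 2 ^ (W + v) * (2 : ℝ) ^ (m * (W : ℤ)) *
                ((∏ k ∈ J, ρ k ^ (w E a k)) * μ ^ v) := by
              rw [mul_pow, pow_add]; ring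
          _ ≤ 2 ^ (W + v) * (2 : ℝ) ^ (m * (W : ℤ)) * (T * B ^ v) :=
              mul_le_mul_of_nonneg_left hprod (by positivity)
          _ = _ := by rw [hA0]; ring
      have h2 : (2 : ℝ) ^ ((∑ k ∈ J, w E a k * s k : ℤ) + m * v : ℤ) ≤
          (2 : ℝ) ^ (L0 + m * (W : ℝ)) := by
        rw [zpow_add₀ two_ne_zero, zpow_mul, zpow_natCast, Real.rpow_add two_pos, hL0,
          rpow_logb (by positivity)]
        refine h1.trans (le_of_eq ?_)
        congr 1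
        have : (m : ℝ) * (W : ℝ) = ((m * (W : ℤ) : ℤ) : ℝ) := by push_cast; ring
        rw [this, Real.rpow_intCast]
      rw [← Real.rpow_intCast, Real.rpow_le_rpow_left_iff one_lt_two] at h2
      push_cast at h2 ⊢
      have h3 : (W : ℝ) = e + v := by
        have : W = e + v := hWe
        exact_mod_cast this
      rw [h3] at h2
      linarith
    have hpos : (0 : ℝ) ≤ ((∑ k ∈ J, w E a k * s k : ℤ) : ℝ) := by
      have : (0 : ℤ) ≤ ∑ k ∈ J, w E a k * s k :=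
        Finset.sum_nonneg fun k hk => mul_nonneg (by positivity) (g6 k hk)
      exact_mod_cast this
    have hlow : -(K : ℤ) ≤ m := by
      by_contra hcon
      push Not at hcon
      have h1 : m + 1 ≤ -(K : ℤ) := by omega
      have h2 : (m : ℝ) + 1 ≤ -(K : ℝ) := by exact_mod_cast h1
      have h3 : L0 / e < K + 1 := Nat.lt_floor_add_one _
      rw [div_lt_iff₀ (by linarith)] at h3
      nlinarith
    obtain ⟨j, hj⟩ : ∃ j : ℕ, (j : ℤ) = c - m := ⟨(c - m).toNat, Int.toNat_of_nonneg (by omega)⟩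
    have hm : m = (c : ℤ) - j := by omega
    have hjr : j ∈ Finset.range (c + K + 1) := Finset.mem_range.2 (by omega)
    refine Set.mem_biUnion (Finset.mem_coe.2 hjr) ?_
    have hsA : s ∈ A j := by
      refine (hfin j).mem_toFinset.2 ⟨g5, fun k hk => by simpa using g6 k hk, ?_⟩
      rw [hLfe j hjr]
      refine hkey.trans ?_
      have e1 : (m : ℝ) = (c : ℝ) - j := by rw [hm]; push_cast; ring
      rw [e1]
      linarith
    refine Set.mem_biUnion (Finset.mem_coe.2 hsA) ?_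
    show P ∈ Slab F E J (2 * B) (fun k => (2 : ℝ) ^ (s k - ((c : ℤ) - j))) ((2 : ℝ) ^ ((c : ℤ) - j)) i₀
    rw [hm] at g8
    exact g8
  have hUfin : ∀ j, (⋃ s ∈ A j, Sl j s).Finite := fun j =>
    Set.Finite.biUnion (A j).finite_toSet fun s hs => (hA j s hs).1
  have hUfin' : (⋃ j ∈ Finset.range (c + K + 1), ⋃ s ∈ A j, Sl j s).Finite :=
    Set.Finite.biUnion (Finset.range (c + K + 1)).finite_toSet fun j _ => hUfin j
  refine ⟨hUfin'.subset hcov, c + K + 1, ?_, ?_⟩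
  · refine le_trans ?_ hL'M
    push_cast
    have h1 : (K : ℝ) ≤ K * e := le_mul_of_one_le_right (by positivity) he'
    have h2 : (c : ℝ) ≤ c * e := le_mul_of_one_le_right (by positivity) he'
    rw [hL']
    linarith
  have h6 : (FamJ F E a B T J i₀).ncard ≤
      ∑ j ∈ Finset.range (c + K + 1), ∑ s ∈ A j, (Sl j s).ncard := by
    refine (Set.ncard_le_ncard hcov hUfin').trans ?_
    refine (Finset.set_ncard_biUnion_le _ _).trans ?_
    exact Finset.sum_le_sum fun j _ => Finset.set_ncard_biUnion_le _ _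
  have hL'0 : 0 ≤ L' := by rw [hL']; positivity
  have hterm : ∀ j ∈ Finset.range (c + K + 1), ∑ s ∈ A j, ((Sl j s).ncard : ℝ) ≤
      CS * CU * ((2 * A0) ^ α * T ^ α * (2 : ℝ) ^ ((c : ℝ) * θ)) * L' ^ (J.card - 1) *
        (2 : ℝ) ^ (-((j : ℝ) * θ)) := by
    intro j hj
    have h7 := (hU (Lf j) (hLf j)).2 (A j) (fun s hs => (hfin j).mem_toFinset.1 hs)
    have h8 : Lf j ^ (J.card - 1) ≤ L' ^ (J.card - 1) := by
      refine pow_le_pow_left₀ (by linarith [hLf j]) ?_ _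
      rw [hLfe j hj, hL']
      have : (0 : ℝ) ≤ j * e := by positivity
      nlinarith
    have e2 : (2 : ℝ) ^ (((c : ℝ) - j) * (2 * finrank ℚ F - 2 * DJ)) * (2 : ℝ) ^ (α * Lf j) =
        (2 * A0) ^ α * T ^ α * (2 : ℝ) ^ ((c : ℝ) * θ) * (2 : ℝ) ^ (-((j : ℝ) * θ)) := by
      rw [hLfe j hj, ← Real.rpow_add two_pos]
      have e3 : ((c : ℝ) - j) * (2 * finrank ℚ F - 2 * DJ) +
          α * (L0 + ((c : ℝ) - j) * e + 1) =
          (L0 + 1) * α + (c : ℝ) * θ + -((j : ℝ) * θ) := by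
        rw [hθ]; ring
      rw [e3, Real.rpow_add two_pos, Real.rpow_add two_pos, Real.rpow_mul zero_le_two,
        Real.rpow_add two_pos, Real.rpow_one, hL0, rpow_logb (by positivity)]
      have e4 : A0 * T * 2 = (2 * A0) * T := by ring
      rw [e4, Real.mul_rpow (by positivity) hT0.le]
    calc ∑ s ∈ A j, ((Sl j s).ncard : ℝ)
        ≤ ∑ s ∈ A j, CS * ((2 : ℝ) ^ (((c : ℝ) - j) * (2 * finrank ℚ F - 2 * DJ)) *
            (2 : ℝ) ^ (α * ((∑ k ∈ J, w E a k * s k : ℤ) : ℝ))) :=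
          Finset.sum_le_sum fun s hs => (hA j s hs).2
      _ = CS * (2 : ℝ) ^ (((c : ℝ) - j) * (2 * finrank ℚ F - 2 * DJ)) *
            ∑ s ∈ A j, (2 : ℝ) ^ (α * ((∑ k ∈ J, w E a k * s k : ℤ) : ℝ)) := by
          rw [Finset.mul_sum]
          exact Finset.sum_congr rfl fun s _ => by ring
      _ ≤ CS * (2 : ℝ) ^ (((c : ℝ) - j) * (2 * finrank ℚ F - 2 * DJ)) *
            (CU * (2 : ℝ) ^ (α * Lf j) * Lf j ^ (J.card - 1)) :=
          mul_le_mul_of_nonneg_left h7 (by positivity)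
      _ = CS * CU * ((2 : ℝ) ^ (((c : ℝ) - j) * (2 * finrank ℚ F - 2 * DJ)) *
            (2 : ℝ) ^ (α * Lf j)) * Lf j ^ (J.card - 1) := by ring
      _ ≤ CS * CU * ((2 : ℝ) ^ (((c : ℝ) - j) * (2 * finrank ℚ F - 2 * DJ)) *
            (2 : ℝ) ^ (α * Lf j)) * L' ^ (J.card - 1) :=
          mul_le_mul_of_nonneg_left h8 (by positivity)
      _ = _ := by rw [e2]; ring
  have hpowL : L' ^ (J.card - 1) ≤ (M * Real.log T) ^ (J.card - 1) :=
    pow_le_pow_left₀ hL'0 hL'M _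
  calc ((FamJ F E a B T J i₀).ncard : ℝ)
      ≤ ((∑ j ∈ Finset.range (c + K + 1), ∑ s ∈ A j, (Sl j s).ncard : ℕ) : ℝ) := by
        exact_mod_cast h6
    _ = ∑ j ∈ Finset.range (c + K + 1), ∑ s ∈ A j, ((Sl j s).ncard : ℝ) := by push_cast; rfl
    _ ≤ ∑ j ∈ Finset.range (c + K + 1),
          CS * CU * ((2 * A0) ^ α * T ^ α * (2 : ℝ) ^ ((c : ℝ) * θ)) * L' ^ (J.card - 1) *
          (2 : ℝ) ^ (-((j : ℝ) * θ)) := Finset.sum_le_sum hterm
    _ = CS * CU * ((2 * A0) ^ α * T ^ α * (2 : ℝ) ^ ((c : ℝ) * θ)) * L' ^ (J.card - 1) *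
          ∑ j ∈ Finset.range (c + K + 1), (2 : ℝ) ^ (-((j : ℝ) * θ)) := by rw [Finset.mul_sum]
    _ ≤ CS * CU * ((2 * A0) ^ α * T ^ α * (2 : ℝ) ^ ((c : ℝ) * θ)) *
          (M * Real.log T) ^ (J.card - 1) *
          ∑ j ∈ Finset.range (c + K + 1), (2 : ℝ) ^ (-((j : ℝ) * θ)) := by
        refine mul_le_mul_of_nonneg_right (mul_le_mul_of_nonneg_left hpowL (by positivity))
          (Finset.sum_nonneg fun j _ => by positivity)
    _ = _ := by
        rw [mul_pow]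
        ring

/-- sums of powers -/
theorem geo1 {θ : ℝ} (hθ : 1 ≤ θ) (N : ℕ) :
    ∑ j ∈ Finset.range N, (2 : ℝ) ^ (-((j : ℝ) * θ)) ≤ 2 := by
  have h1 : ∀ j ∈ Finset.range N, (2 : ℝ) ^ (-((j : ℝ) * θ)) ≤ (1 / 2 : ℝ) ^ j := by
    intro j _
    have e1 : (1 / 2 : ℝ) ^ j = (2 : ℝ) ^ (-(j : ℝ)) := by
      rw [Real.rpow_neg zero_le_two, Real.rpow_natCast, one_div, inv_pow]
    rw [e1]
    apply Real.rpow_le_rpow_of_exponent_le one_le_two
    have : (0 : ℝ) ≤ j := by positivity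
    nlinarith
  refine (Finset.sum_le_sum h1).trans ?_
  have h2 : ∀ N : ℕ, ∑ j ∈ Finset.range N, (1 / 2 : ℝ) ^ j = 2 - 2 * (1 / 2) ^ N := by
    intro N
    induction N with
    | zero => simp
    | succ N ih => rw [Finset.sum_range_succ, ih, pow_succ]; ring
  rw [h2]
  have : (0 : ℝ) ≤ 2 * (1 / 2) ^ N := by positivity
  linarith

theorem geo0 {θ : ℝ} (hθ : 0 ≤ θ) (N : ℕ) :
    ∑ j ∈ Finset.range N, (2 : ℝ) ^ (-((j : ℝ) * θ)) ≤ N := by
  have h1 : ∀ j ∈ Finset.range N, (2 : ℝ) ^ (-((j : ℝ) * θ)) ≤ 1 := by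
    intro j _
    apply Real.rpow_le_one_of_one_le_of_nonpos one_le_two
    have : (0 : ℝ) ≤ j * θ := by positivity
    linarith
  refine (Finset.sum_le_sum h1).trans ?_
  simp

theorem sumD : ∑ k, finrank ℚ (E k) = finrank ℚ F * deg F E := by
  unfold deg
  rw [Finset.mul_sum]
  exact Finset.sum_congr rfl fun k _ => fr F E k

theorem sumW : ∑ k, w E a k = finrank ℚ F * tot F E a := by
  unfold tot w
  rw [Finset.mul_sum]
  exact Finset.sum_congr rfl fun k _ => by rw [fr F E k]; ring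

theorem case1 (hslab : Pool.Agent.K1H88.DF.S_SLAB) (hsum : S_SUM) {B α : ℝ}
    (hdeg : 3 ≤ deg F E) (hB : 1 ≤ B) (hα : 0 < α) (ha : ∀ k, 1 ≤ a k)
    (hαa : ∀ k, 2 ≤ α * a k)
    (hα2 : ∀ k, 2 * (deg F E : ℝ) - 4 ≤ α * (tot F E a - 2 * a k)) (hne : Nonempty ι)
    (i₀ : ∀ u : F →+* ℂ, EmbU F E u) :
    ∃ C : ℝ, 0 < C ∧ ∀ T : ℝ, 2 ≤ T → (FamJ F E a B T Finset.univ i₀).Finite ∧
      ((FamJ F E a B T Finset.univ i₀).ncard : ℝ) ≤
        C * T ^ α * Real.log T ^ (Fintype.card ι - 1) := by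
  have hd := d_pos F
  have hd' : (1 : ℝ) ≤ finrank ℚ F := by exact_mod_cast hd
  obtain ⟨k₁⟩ := hne
  have htot : 1 ≤ tot F E a := by
    unfold tot
    have h1 : a k₁ * finrank F (E k₁) ≤ ∑ k, a k * finrank F (E k) :=
      Finset.single_le_sum (f := fun k => a k * finrank F (E k)) (fun _ _ => Nat.zero_le _)
        (Finset.mem_univ k₁)
    have := fin F E k₁
    have h2 : 0 < finrank F (E k₁) := Module.finrank_pos
    have h3 : 1 ≤ a k₁ * finrank F (E k₁) := Nat.mul_pos (ha k₁) h2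
    omega
  have hαA : 2 * (deg F E : ℝ) ≤ α * tot F E a := by
    have h1 := hα2 k₁
    have h2 := hαa k₁
    nlinarith
  obtain ⟨C, M, hC, hM, h⟩ := caseJ F E a hslab hsum hB hα ha hαa i₀ Finset.univ ⟨k₁, Finset.mem_univ _⟩
    0 (finrank ℚ F * tot F E a) (Nat.mul_pos hd htot) (by rw [sumW F E a]; rfl)
    (α * ((finrank ℚ F * tot F E a : ℕ) : ℝ) - 2 * ((∑ k, finrank ℚ (E k) : ℕ) : ℝ)
      + 2 * finrank ℚ F) rfl (by
        rw [sumD F E]
        push_cast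
        nlinarith [mul_le_mul_of_nonneg_left hαA (by linarith : (0 : ℝ) ≤ finrank ℚ F)])
    (by
      intro T P ρ μ _ _ _ _ h1 _
      simpa using h1)
  have hθ1 : 1 ≤ (α * ((finrank ℚ F * tot F E a : ℕ) : ℝ) - 2 * ((∑ k, finrank ℚ (E k) : ℕ) : ℝ)
      + 2 * finrank ℚ F) := by
    rw [sumD F E]
    push_cast
    nlinarith [mul_le_mul_of_nonneg_left hαA (by linarith : (0 : ℝ) ≤ finrank ℚ F)]
  refine ⟨C * 2, by positivity, fun T hT => ?_⟩
  obtain ⟨h1, N, h2, h3⟩ := h T hT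
  refine ⟨h1, h3.trans ?_⟩
  have hlog : 0 ≤ Real.log T := Real.log_nonneg (by linarith)
  have hT0 : 0 < T := by linarith
  rw [Finset.card_univ]
  calc C * T ^ α * Real.log T ^ (Fintype.card ι - 1) *
        ∑ j ∈ Finset.range N, (2 : ℝ) ^ (-((j : ℝ) * (α * ((finrank ℚ F * tot F E a : ℕ) : ℝ) -
          2 * ((∑ k, finrank ℚ (E k) : ℕ) : ℝ) + 2 * finrank ℚ F)))
      ≤ C * T ^ α * Real.log T ^ (Fintype.card ι - 1) * 2 :=
        mul_le_mul_of_nonneg_left (geo1 hθ1 N) (by positivity)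
    _ = _ := by ring

theorem case2 (hslab : Pool.Agent.K1H88.DF.S_SLAB) (hsum : S_SUM) {B α : ℝ}
    (hdeg : 3 ≤ deg F E) (hB : 1 ≤ B) (hα : 0 < α) (ha : ∀ k, 1 ≤ a k)
    (ha2 : ∀ k, 2 * a k < tot F E a) (hαa : ∀ k, 2 ≤ α * a k)
    (hα2 : ∀ k, 2 * (deg F E : ℝ) - 4 ≤ α * (tot F E a - 2 * a k))
    (i₀ : ∀ u : F →+* ℂ, EmbU F E u) [DecidableEq ι] (k₀ : ι) (hk₀ : finrank F (E k₀) = 1) :
    ∃ C : ℝ, 0 < C ∧ ∀ T : ℝ, 2 ≤ T → (FamJ F E a B T (Finset.univ.erase k₀) i₀).Finite ∧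
      ((FamJ F E a B T (Finset.univ.erase k₀) i₀).ncard : ℝ) ≤
        C * T ^ α * Real.log T ^ (Fintype.card ι - 1) := by
  have hd := d_pos F
  have hd' : (1 : ℝ) ≤ finrank ℚ F := by exact_mod_cast hd
  have hkq : finrank ℚ (E k₀) = finrank ℚ F := by rw [fr F E k₀, hk₀, mul_one]
  have hwk : w E a k₀ = finrank ℚ F * a k₀ := by unfold w; rw [hkq]; ring
  set J : Finset ι := Finset.univ.erase k₀ with hJdef
  have hsplit : ∑ k ∈ J, w E a k + w E a k₀ = finrank ℚ F * tot F E a := by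
    rw [← sumW, hJdef]
    exact Finset.sum_erase_add _ _ (Finset.mem_univ k₀)
  have hsplitD : ∑ k ∈ J, finrank ℚ (E k) + finrank ℚ F = finrank ℚ F * deg F E := by
    rw [← sumD, hJdef, ← hkq]
    exact Finset.sum_erase_add _ _ (Finset.mem_univ k₀)
  have hne : J.Nonempty := by
    rw [Finset.nonempty_iff_ne_empty]
    intro h
    rw [h, Finset.sum_empty, zero_add] at hsplitD
    have : finrank ℚ F * 3 ≤ finrank ℚ F * deg F E := Nat.mul_le_mul_left _ hdeg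
    omega
  have hcard : J.card = Fintype.card ι - 1 := by
    rw [hJdef, Finset.card_erase_of_mem (Finset.mem_univ _), Finset.card_univ]
  have hcard1 : J.card - 1 + 1 = Fintype.card ι - 1 := by
    have : 0 < J.card := Finset.card_pos.2 hne
    omega
  obtain ⟨q, hq⟩ : ∃ q, tot F E a = 2 * a k₀ + (q + 1) :=
    ⟨tot F E a - 2 * a k₀ - 1, by have := ha2 k₀; omega⟩
  have hq' : (tot F E a : ℝ) = 2 * a k₀ + (q + 1) := by exact_mod_cast hq
  have hWe : ∑ k ∈ J, w E a k = finrank ℚ F * (q + 1) + finrank ℚ F * a k₀ := by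
    rw [hwk, hq] at hsplit
    have e1 : finrank ℚ F * (2 * a k₀ + (q + 1)) =
        (finrank ℚ F * (q + 1) + finrank ℚ F * a k₀) + finrank ℚ F * a k₀ := by ring
    rw [e1] at hsplit
    exact Nat.add_right_cancel hsplit
  have hDJ : ((∑ k ∈ J, finrank ℚ (E k) : ℕ) : ℝ) = finrank ℚ F * deg F E - finrank ℚ F := by
    have : ((∑ k ∈ J, finrank ℚ (E k) + finrank ℚ F : ℕ) : ℝ) =
        ((finrank ℚ F * deg F E : ℕ) : ℝ) := by rw [hsplitD]
    push_cast at this ⊢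
    linarith
  have hα3 : 2 * (deg F E : ℝ) - 4 ≤ α * (q + 1) := by
    have := hα2 k₀
    rw [hq'] at this
    have e1 : (2 * (a k₀ : ℝ) + (q + 1) - 2 * a k₀) = q + 1 := by ring
    rwa [e1] at this
  have hθ0 : 0 ≤ α * ((finrank ℚ F * (q + 1) : ℕ) : ℝ) -
      2 * ((∑ k ∈ J, finrank ℚ (E k) : ℕ) : ℝ) + 2 * finrank ℚ F := by
    rw [hDJ]
    push_cast
    nlinarith [mul_le_mul_of_nonneg_left hα3 (by linarith : (0 : ℝ) ≤ finrank ℚ F)]
  obtain ⟨C, M, hC, hM, h⟩ := caseJ F E a hslab hsum hB hα ha hαa i₀ J hne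
    (finrank ℚ F * a k₀) (finrank ℚ F * (q + 1)) (Nat.mul_pos hd (Nat.succ_pos q)) hWe
    (α * ((finrank ℚ F * (q + 1) : ℕ) : ℝ) - 2 * ((∑ k ∈ J, finrank ℚ (E k) : ℕ) : ℝ)
      + 2 * finrank ℚ F) rfl hθ0
    (by
      intro T P ρ μ p3 p4 p5 p6 p8 p11
      have hx0 : P.1 k₀ = 0 := by
        by_contra h
        have := (p4 k₀).2 h
        rw [hJdef] at this
        exact Finset.notMem_erase k₀ _ this
      have hy1 : P.2 k₀ = 1 := p3 k₀ hx0
      have hρ0 : μ ≤ B * ρ k₀ := by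
        obtain ⟨σ⟩ : Nonempty (E k₀ →+* ℂ) := by
          have h1 : 0 < Fintype.card (E k₀ →+* ℂ) := by
            rw [Embeddings.card]; exact Module.finrank_pos
          exact Fintype.card_pos_iff.1 h1
        have := p11 ⟨k₀, σ⟩
        simp only at this
        rw [hy1, map_one, norm_one] at this
        rwa [le_div_iff₀ p6, one_mul] at this
      have hQ0 : 0 ≤ ∏ k ∈ J, ρ k ^ (w E a k) := Finset.prod_nonneg fun k _ => by
        have := p5 k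
        positivity
      have hprod : (∏ k ∈ J, ρ k ^ (w E a k)) * ρ k₀ ^ (finrank ℚ F * a k₀) ≤ T := by
        have e1 : ∏ k, ρ k ^ (w E a k) =
            (∏ k ∈ J, ρ k ^ (w E a k)) * ρ k₀ ^ (finrank ℚ F * a k₀) := by
          rw [← Finset.prod_erase_mul _ _ (Finset.mem_univ k₀), hwk]
        rw [← e1]; exact p8
      calc (∏ k ∈ J, ρ k ^ (w E a k)) * μ ^ (finrank ℚ F * a k₀) ≤
            (∏ k ∈ J, ρ k ^ (w E a k)) * (B * ρ k₀) ^ (finrank ℚ F * a k₀) :=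
            mul_le_mul_of_nonneg_left (pow_le_pow_left₀ p6.le hρ0 _) hQ0
        _ = ((∏ k ∈ J, ρ k ^ (w E a k)) * ρ k₀ ^ (finrank ℚ F * a k₀)) *
              B ^ (finrank ℚ F * a k₀) := by
            rw [mul_pow]; ring
        _ ≤ T * B ^ (finrank ℚ F * a k₀) := mul_le_mul_of_nonneg_right hprod (by positivity))
  refine ⟨C * M, by positivity, fun T hT => ?_⟩
  obtain ⟨h1, N, h2, h3⟩ := h T hT
  refine ⟨h1, h3.trans ?_⟩
  have hlog : 0 ≤ Real.log T := Real.log_nonneg (by linarith)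
  have hT0 : 0 < T := by linarith
  rw [← hcard1, pow_succ]
  calc C * T ^ α * Real.log T ^ (J.card - 1) *
        ∑ j ∈ Finset.range N, (2 : ℝ) ^ (-((j : ℝ) * (α * ((finrank ℚ F * (q + 1) : ℕ) : ℝ) -
          2 * ((∑ k ∈ J, finrank ℚ (E k) : ℕ) : ℝ) + 2 * finrank ℚ F)))
      ≤ C * T ^ α * Real.log T ^ (J.card - 1) * (M * Real.log T) :=
        mul_le_mul_of_nonneg_left ((geo0 hθ0 N).trans h2) (by positivity)
    _ = _ := by ring

theorem t_TOT (hslab : Pool.Agent.K1H88.DF.S_SLAB) (hsum : S_SUM) : S_TOT := by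
  classical
  intro F _ _ ι _ E _ _ _ a B α hdeg hB ha ha2 hαa hα2
  have hne : Nonempty ι := by
    by_contra hcon
    rw [not_nonempty_iff] at hcon
    have h1 : deg F E = 0 := by
      unfold deg
      exact Finset.sum_of_isEmpty _
    omega
  have hα : 0 < α := by
    obtain ⟨k⟩ := hne
    have h1 := hαa k
    by_contra hcon
    push Not at hcon
    have h2 : (0 : ℝ) ≤ a k := by positivity
    nlinarith
  have key : ∀ x : Finset ι × (∀ u : F →+* ℂ, EmbU F E u), ∃ C : ℝ, 0 < C ∧ ∀ T : ℝ, 2 ≤ T →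
      (FamJ F E a B T x.1 x.2).Finite ∧
      ((FamJ F E a B T x.1 x.2).ncard : ℝ) ≤
        C * T ^ α * Real.log T ^ (Fintype.card ι - 1) := by
    rintro ⟨J, i₀⟩
    by_cases h1 : J = Finset.univ
    · subst h1
      exact case1 F E a hslab hsum hdeg hB hα ha hαa hα2 hne i₀
    · by_cases h2 : ∃ k₀, J = Finset.univ.erase k₀ ∧ finrank F (E k₀) = 1
      · obtain ⟨k₀, rfl, hk₀⟩ := h2
        exact case2 F E a hslab hsum hdeg hB hα ha ha2 hαa hα2 i₀ k₀ hk₀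
      · refine ⟨1, one_pos, fun T hT => ?_⟩
        have hemp : FamJ F E a B T J i₀ = ∅ := by
          rw [Set.eq_empty_iff_forall_notMem]
          rintro P ⟨p1, p2, p3, p4, -⟩
          obtain ⟨k₀, hk₀⟩ : ∃ k₀, k₀ ∉ J := by
            by_contra hcon
            push Not at hcon
            exact h1 (Finset.eq_univ_iff_forall.2 hcon)
          have hx0 : P.1 k₀ = 0 := by
            by_contra h
            exact hk₀ ((p4 k₀).2 h)
          obtain ⟨f1, f3⟩ := zero_facts F E p2 hx0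
          apply h2
          refine ⟨k₀, ?_, f1⟩
          ext k
          rw [Finset.mem_erase, p4 k]
          constructor
          · intro h
            refine ⟨?_, Finset.mem_univ _⟩
            rintro rfl
            exact h hx0
          · rintro ⟨h, -⟩ h0
            exact h (f3 k h0)
        simp only
        rw [hemp]
        refine ⟨Set.finite_empty, ?_⟩
        rw [Set.ncard_empty]
        have : 0 ≤ Real.log T := Real.log_nonneg (by linarith)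
        have hT0 : 0 < T := by linarith
        push_cast
        positivity
  have hsub : ∀ T : ℝ, Fam F E a B T ⊆
      ⋃ x ∈ (Finset.univ : Finset (Finset ι × (∀ u : F →+* ℂ, EmbU F E u))),
        FamJ F E a B T x.1 x.2 := by
    rintro T P ⟨h1, h2, h3, ρ, μ, i₀, h4, h5, h6, h7, h8, h9, h10⟩
    refine Set.mem_biUnion (x := (Finset.univ.filter fun k => P.1 k ≠ 0, i₀))
      (Finset.mem_coe.2 (Finset.mem_univ _)) ?_
    exact ⟨h1, h2, h3, fun k => by simp, ρ, μ, h4, h5, h6, h7, h8, h9, h10⟩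
  choose C hC hC2 using key
  refine ⟨∑ x, C x + 1, ?_, fun T hT => ?_⟩
  · have : 0 ≤ ∑ x, C x := Finset.sum_nonneg fun x _ => (hC x).le
    linarith
  have hfin : (⋃ x ∈ (Finset.univ : Finset (Finset ι × (∀ u : F →+* ℂ, EmbU F E u))),
      FamJ F E a B T x.1 x.2).Finite :=
    Set.Finite.biUnion (Finset.finite_toSet _) fun x _ => (hC2 x T hT).1
  refine ⟨hfin.subset (hsub T), ?_⟩
  have h1 : (Fam F E a B T).ncard ≤
      ∑ x : Finset ι × (∀ u : F →+* ℂ, EmbU F E u), (FamJ F E a B T x.1 x.2).ncard :=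
    (Set.ncard_le_ncard (hsub T) hfin).trans (Finset.set_ncard_biUnion_le _ _)
  have hlog : 0 ≤ Real.log T := Real.log_nonneg (by linarith)
  have hT0 : 0 < T := by linarith
  calc ((Fam F E a B T).ncard : ℝ) ≤
        ((∑ x : Finset ι × (∀ u : F →+* ℂ, EmbU F E u), (FamJ F E a B T x.1 x.2).ncard : ℕ) : ℝ) := by
        exact_mod_cast h1
    _ = ∑ x : Finset ι × (∀ u : F →+* ℂ, EmbU F E u), ((FamJ F E a B T x.1 x.2).ncard : ℝ) := by
        push_cast; rfl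
    _ ≤ ∑ x : Finset ι × (∀ u : F →+* ℂ, EmbU F E u),
          C x * T ^ α * Real.log T ^ (Fintype.card ι - 1) :=
        Finset.sum_le_sum fun x _ => (hC2 x T hT).2
    _ = (∑ x, C x) * T ^ α * Real.log T ^ (Fintype.card ι - 1) := by
        rw [Finset.sum_mul, Finset.sum_mul]
    _ ≤ _ := by
        refine mul_le_mul_of_nonneg_right (mul_le_mul_of_nonneg_right (by linarith) (by positivity))
          (by positivity)

end Pool.Agent.K1H68.DW

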